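import Pool.Agent.Helper7.LU.GPe

/-!
MP_3029eb_ag: embedded local uniformization, on ALL quasi-excellent local domains (in all dimensions and
characteristics), of the discrete valuations of arbitrary finite rank with finitely generated residue fields.

A noetherian local ring `R` is quasi-excellent if and only if every local domain essentially of finite type over
`R` has a regular generic formal fibre: if `L` is a finite extension of the residue field of a prime ideal `𝔭` of `R`
and `B` is a finite `R / 𝔭`-algebra with fraction field `L`, then `L ⊗ R̂` is the product of the generic formal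
fibres of the local rings of `B`; the converse is EGA IV 7.4.4. The condition on `R` in the theorem is the second one.

Let `V` be a valuation ring of the fraction field `K` of `R` which contains `R`, and which is a composite of `n` discrete
valuations of rank one such that the residue field of each of them is a finitely generated field over `R`. (For
`n = 1`: `V` is a discrete valuation ring whose residue field is finitely generated over `R`.) Then for all finite
sets `F ⊆ V` and `G ⊆ K \ {0}` there is an `R`-algebra `A` of finite type with `F ⊆ A ⊆ V` whose local ring at the centre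
of `V` is regular and has a partial regular system of parameters `x_1, …, x_r` such that the elements of `G` are
products of units with powers of the `x_i`.

Proof. For rank one let `R₁` be the local ring, at the centre of `V`, of a finitely generated `R`-algebra such that
`V` and `R₁` have the same residue field. The method of `DiscreteValuationsAllRings` applies to `R₁`: if `W` is the completion of
`V`, then for suitable algebras `A` of finite type over `R₁` in `V` the homomorphism from `B = R̂₁ ⊗ A` to `W` is
surjective with kernel `Q`, and `B` is regular at `Q`, of dimension `h`; hence `Q / Q ^ 2` is the sum of `W ^ h` and of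
a module which is killed by a power `t ^ c` of the uniformizing element, and the algebra generated by the
elements `a / t ^ c`, where `a ∈ A` has value greater than `c`, is regular at the centre. The denominators of this algebra
are controlled, which gives the strong form of log uniformization that is needed for composites (the
composition theorem of the library, `TH188.QS.gp_comp`); induction on `n`.
-/

set_option autoImplicit false

open scoped TensorProduct
open IsLocalRing Pool.Agent.Helper7.LU

universe u

namespace Pool.Agent.Results.MP_3029eb_ag.DiscreteFiniteRankAllRings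

/-- Every local domain `B` essentially of finite type over `R` has a regular generic formal fibre `L ⊗ B̂`, where `L` is
the fraction field of `B`. For a noetherian local ring `R` this means that `R` is quasi-excellent. -/
def GenericFormalFibresRegular (R : Type u) [CommRing R] : Prop :=
  ∀ (B : Type u) [CommRing B] [IsDomain B] [IsLocalRing B] [Algebra R B] [Algebra.EssFiniteType R B]
    (L : Type u) [Field L] [Algebra B L] [IsFractionRing B L]
    (Q : Ideal (L ⊗[B] AdicCompletion (maximalIdeal B) B)) [Q.IsPrime],
    IsRegularLocalRing (Localization.AtPrime Q)

/-- `V` is the composite of the valuation ring `V₁` and the valuation ring `W` of its residue field. -/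
def IsComposite {K : Type u} [Field K] (V V₁ : ValuationSubring K) (W : ValuationSubring (ResidueField V₁)) :
    Prop :=
  ∀ z : K, z ∈ V ↔ ∃ hz : z ∈ V₁, residue V₁ ⟨z, hz⟩ ∈ W

/-- The homomorphism from `R` to the residue field of a valuation ring that contains the image of `R`. -/
noncomputable def toResidueField {R K : Type u} [CommRing R] [Field K] (ρ : R →+* K) (V₁ : ValuationSubring K)
    (hρ : ∀ a, ρ a ∈ V₁.toSubring) : R →+* ResidueField V₁ :=
  (residue V₁).comp (ρ.codRestrict V₁.toSubring hρ)

/-- The field `L` is generated by the image of `R` and finitely many elements. -/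
def IsFinitelyGeneratedField {R L : Type u} [CommRing R] [Field L] (ρ : R →+* L) : Prop :=
  ∃ X : Set L, X.Finite ∧ Subfield.closure ((ρ.range : Set L) ∪ X) = ⊤

/-- `V` is the composite of `n` discrete valuation rings (of rank one) whose residue fields are finitely generated
over `R`. -/
def IsDiscreteOfRank (R : Type u) [CommRing R] :
    ℕ → ∀ {K : Type u} [Field K], (R →+* K) → ValuationSubring K → Prop
  | 0, _, _, _, V => V = ⊤
  | n + 1, K, _, ρ, V => ∃ (V₁ : ValuationSubring K) (W : ValuationSubring (ResidueField V₁))
      (hρ : ∀ a, ρ a ∈ V₁.toSubring), IsComposite V V₁ W ∧ IsDiscreteValuationRing V₁ ∧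
      IsFinitelyGeneratedField (toResidueField ρ V₁ hρ) ∧ IsDiscreteOfRank R n (toResidueField ρ V₁ hρ) W

theorem fd_of {R : Type u} [CommRing R] (n : ℕ) : ∀ {K : Type u} [Field K] (ρ : R →+* K)
    (V : ValuationSubring K), IsDiscreteOfRank R n ρ V → FD R n ρ V := by
  induction n with
  | zero => exact fun ρ V h => h
  | succ n ih =>
    rintro K _ ρ V ⟨V₁, W, hρ, h1, h2, ⟨X, hX, hX'⟩, h4⟩
    refine ⟨V₁, W, hρ, h1, h2, ⟨X, hX, fun z => ?_⟩, ih _ _ h4⟩
    have h5 : Subfield.closure (((toResidueField ρ V₁ hρ).range : Set (ResidueField V₁)) ∪ X) ≤
        frSub (Subring.closure (((toResidueField ρ V₁ hρ).range : Set (ResidueField V₁)) ∪ X)) := by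
      rw [Subfield.closure_le]
      exact fun y hy => Pool.Agent.TH188.QS.Fr.of_mem (Subring.subset_closure hy)
    have h6 : z ∈ Subfield.closure (((toResidueField ρ V₁ hρ).range : Set (ResidueField V₁)) ∪ X) := by
      rw [hX']
      trivial
    exact h5 h6

/-- **Embedded local uniformization of the discrete valuations of finite rank with finitely generated residue
fields on all quasi-excellent local domains.** See the explanations above. -/
theorem result (R : Type u) [CommRing R] [IsDomain R] [IsNoetherianRing R] (hR : GenericFormalFibresRegular R)
    (K : Type u) [Field K] [Algebra R K] [IsFractionRing R K]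
    (V : ValuationSubring K) (centred : ∀ r : R, algebraMap R K r ∈ V)
    (n : ℕ) (hV : IsDiscreteOfRank R n (algebraMap R K) V)
    (F G : Finset K) (hF : ∀ x ∈ F, x ∈ V) (hG : ∀ x ∈ G, x ≠ 0) :
    ∃ A : Subalgebra R K, A.FG ∧ (∀ a ∈ A, a ∈ V) ∧ (∀ x ∈ F, x ∈ A) ∧
      ∃ (P : Ideal A) (_ : P.IsPrime), (∀ a : A, a ∈ P ↔ V.valuation (a : K) < 1) ∧
        IsRegularLocalRing (Localization.AtPrime P) ∧
        ∃ (r : ℕ) (x : Fin r → A), (∀ i, (x i : K) ≠ 0) ∧ (∀ i, x i ∈ P) ∧
          (∀ c : Fin r → Localization.AtPrime P,
            ∑ i, c i * algebraMap A (Localization.AtPrime P) (x i) ∈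
              maximalIdeal (Localization.AtPrime P) ^ 2 →
            ∀ i, c i ∈ maximalIdeal (Localization.AtPrime P)) ∧
          ∀ y ∈ G, ∃ (k : Fin r → ℤ) (v w : A), v ∉ P ∧ w ∉ P ∧
            y * (w : K) = v * ∏ i, (x i : K) ^ k i := by
  have hcl : Subring.closure (((algebraMap R K).range : Set K) ∪ ∅) = (algebraMap R K).range := by
    rw [Set.union_empty, Subring.closure_eq]
  have hRV : (algebraMap R K).range ≤ V.toSubring := by
    rintro _ ⟨r, rfl⟩
    exact centred r
  have hfr : ∀ z : K, Pool.Agent.TH188.QS.Fr (algebraMap R K).range z := by
    intro z
    obtain ⟨a, b, hb, rfl⟩ := IsFractionRing.div_surjective (A := R) z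
    refine ⟨_, ⟨a, rfl⟩, _, ⟨b, rfl⟩, ?_, div_eq_mul_inv _ _⟩
    intro h
    exact nonZeroDivisors.ne_zero hb (IsFractionRing.injective R K (by rw [h, map_zero]))
  have hgp := gp_fd (R := R) hR n V (algebraMap R K) (fd_of n _ _ hV) ∅ Set.finite_empty
    (by rw [hcl]; exact hRV) (by rw [hcl]; exact hfr)
  rw [hcl] at hgp
  exact embedded V centred hgp hfr F G hF hG

end Pool.Agent.Results.MP_3029eb_ag.DiscreteFiniteRankAllRings
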