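import Pool.Agent.Helper7.LU.Final

/-!
MP_3029eb_ag: embedded local uniformization of discrete valuations on ALL noetherian local domains with a
regular generic formal fibre, in all dimensions and characteristics.

Let `R` be a noetherian local domain with fraction field `K` whose generic formal fibre, the ring
`K ⊗ R̂`, is regular, for instance any quasi-excellent local domain. (Nothing is supposed about the other formal
fibres or about the chains of prime ideals.) Let `V` be a discrete valuation ring of `K` which
dominates `R` and whose residue field is finite over the residue field of `R`. Then there is a number `h`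
such that for all finite subsets `F` of `V` there is an `R`-subalgebra `A` of finite type of `K` with `F ⊆ A ⊆ V`
whose local ring at the centre of `V` is regular of dimension `h + 1`; moreover this local ring has a
regular parameter `τ` such that all nonzero elements of `F` are products of powers of `τ` and units. In
particular `V` is the directed union of regular local rings of dimension `h + 1` which are essentially
of finite type over `R`.

Proof. Let `W` be the completion of `V`, a finite module over `R̂`. For a suitable subalgebra `A` of `V` of finite
type the homomorphism `B = R̂ ⊗ A → W` is surjective. Let `Q` be its kernel. The local ring of `B` at `Q` is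
the one of the generic formal fibre at a prime ideal, regular of some dimension `h`. So `Q / Q ^ 2` is the sum of a free
module of rank `h` over the discrete valuation ring `W = B / Q` and of a module killed by a power `t ^ c` of
the uniformizing element. For `e ≥ c`, `n > e` let `A'` be the subalgebra generated by `A` and the elements `a / t ^ e`
where `a ∈ A` has value at least `n`. The centre of `V` on `A'` is generated, modulo its square, by `t` and the
quotients by `t ^ e` of approximations of `h` elements of `Q`; and the height of the centre is greater than the height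
`h` of the kernel of `R̂ ⊗ A' → W`, by Krull's theorem.
-/

set_option autoImplicit false

open scoped TensorProduct
open IsLocalRing Pool.Agent.Helper7.LU

universe u

namespace Pool.Agent.Results.MP_3029eb_ag.DiscreteValuationsAllRings

/-- **Embedded local uniformization of discrete valuations on all noetherian local domains with a regular generic
formal fibre.** See the explanations above. The elements of the finite set `s` generate the residue field
of `V` as a module over `R`. -/
theorem result (R : Type u) [CommRing R] [IsDomain R] [IsNoetherianRing R] [IsLocalRing R]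
    (K : Type u) [Field K] [Algebra R K] [IsFractionRing R K]
    (reg : ∀ (Q : Ideal (K ⊗[R] AdicCompletion (maximalIdeal R) R)) [Q.IsPrime],
      IsRegularLocalRing (Localization.AtPrime Q))
    (V : ValuationSubring K) [IsDiscreteValuationRing V]
    (centred : ∀ r : R, algebraMap R K r ∈ V)
    (centred' : ∀ r : R, r ∈ maximalIdeal R ↔ V.valuation (algebraMap R K r) < 1)
    (s : Finset K) (hs : ∀ x ∈ s, x ∈ V)
    (finite : ∀ v ∈ V, ∃ c : K → R, V.valuation (v - ∑ x ∈ s, algebraMap R K (c x) * x) < 1) :
    ∃ h : ℕ, ∀ F : Finset K, (∀ x ∈ F, x ∈ V) →
      ∃ A : Subalgebra R K, A.FG ∧ (∀ a ∈ A, a ∈ V) ∧ (∀ x ∈ F, x ∈ A) ∧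
        ∃ (P : Ideal A) (_ : P.IsPrime), (∀ a : A, a ∈ P ↔ V.valuation (a : K) < 1) ∧
          IsRegularLocalRing (Localization.AtPrime P) ∧
          ringKrullDim (Localization.AtPrime P) = (h + 1 : ℕ) ∧
          ∃ τ : A, algebraMap A (Localization.AtPrime P) τ ∈ maximalIdeal (Localization.AtPrime P) ∧
            algebraMap A (Localization.AtPrime P) τ ∉ maximalIdeal (Localization.AtPrime P) ^ 2 ∧
            ∀ x ∈ F, x ≠ 0 → ∃ (n : ℕ) (u : A), u ∉ P ∧ x = (τ : K) ^ n * u := by
  classical
  let : Algebra R V := (toVal V centred).toAlgebra
  have hV : ∀ r : R, ((algebraMap R V r : V) : K) = algebraMap R K r := fun r => rfl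
  have htower : IsScalarTower R V K := IsScalarTower.of_algebraMap_eq fun r => rfl
  have hlocal : IsLocalHom (algebraMap R V) := by
    constructor
    intro r hr
    by_contra h
    have h1 : r ∈ maximalIdeal R := h
    rw [centred' r, ← hV, ← mem_maximalIdeal_iff_val] at h1
    exact h1 hr
  have hfin : Module.Finite R (ResidueField V) := by
    refine ⟨⟨s.attach.image (fun x => residue V ⟨x.1, hs x.1 x.2⟩), ?_⟩⟩
    rw [eq_top_iff]
    rintro y -
    obtain ⟨v, rfl⟩ := residue_surjective y
    obtain ⟨c, hc⟩ := finite v v.2
    have h1 : v - ∑ x ∈ s.attach, algebraMap R V (c x.1) * ⟨x.1, hs x.1 x.2⟩ ∈ maximalIdeal V := by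
      rw [mem_maximalIdeal_iff_val]
      have h2 : ((v - ∑ x ∈ s.attach, algebraMap R V (c x.1) * ⟨x.1, hs x.1 x.2⟩ : V) : K) =
          (v : K) - ∑ x ∈ s, algebraMap R K (c x) * x := by
        rw [← Finset.sum_attach s]
        push_cast
        rfl
      rw [h2]
      exact hc
    rw [← residue_eq_zero_iff, map_sub, sub_eq_zero] at h1
    rw [h1, map_sum]
    refine Submodule.sum_mem _ fun x _ => ?_
    rw [map_mul]
    have h3 : residue V (algebraMap R V (c x.1)) * residue V ⟨x.1, hs x.1 x.2⟩ =
        (c x.1) • residue V ⟨x.1, hs x.1 x.2⟩ := by
      rw [Algebra.smul_def]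
      rfl
    rw [h3]
    refine Submodule.smul_mem _ _ (Submodule.subset_span ?_)
    simp only [Finset.coe_image, Set.mem_image, Finset.mem_coe]
    exact ⟨x, Finset.mem_attach _ _, rfl⟩
  obtain ⟨t, ht⟩ := IsDiscreteValuationRing.exists_irreducible V
  obtain ⟨h, hh⟩ := uniformize (R := R) (V := V) (K := K) Subtype.val_injective reg ht
  exact ⟨h, uniformized_of V ht (h + 1) hh⟩

end Pool.Agent.Results.MP_3029eb_ag.DiscreteValuationsAllRings
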