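import Pool.Agent.Helper10.MV.Top
import Pool.Agent.Helper10.MV.Rsd
import Pool.Agent.Helper10.MV.Dvg
import Pool.Agent.Helper10.MV.Mv2
import Pool.Agent.Helper10.MV.Mv1
import Pool.Agent.Helper10.MV.Dmp
import Pool.Agent.Helper10.MV.One
import Pool.Agent.Helper10.MV.Rg0
import Pool.Agent.Helper10.MV.Rep
import Pool.Agent.Helper10.MV.Tri
import Pool.Agent.Helper10.MV.Blo
import Pool.Agent.Helper10.MV.Swp
import Pool.Agent.Helper10.MV.Tr2
import Pool.Agent.Helper10.MV.Stg
import Pool.Agent.Helper10.MV.Mn2
import Pool.Agent.Helper10.MV.Pr2
import Pool.Agent.Helper10.MV.Ky2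
import Pool.Agent.Helper10.MV.Ctr
import Pool.Agent.Helper10.MV.St2
import Pool.Agent.Helper10.MV.Fr2
import Pool.Agent.Helper10.MV.Fp2
import Pool.Agent.Helper10.MV.Fn2
import Pool.Agent.Helper10.MV.Dm2
import Pool.Agent.Helper10.MU.Val

/-!
MP_3029eb_ag: embedded local uniformization of ALL valuations of rank one whose formal germ is a regular surface, on
ALL noetherian local domains with a regular generic formal fibre, in all dimensions and characteristics.

Let `R` be a noetherian local domain, not a field, with fraction field `K`, whose generic formal fibre `K ⊗ R̂` is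
regular, for instance any quasi-excellent local domain. Let `R̂ → L` be a homomorphism to a field compatible with
`K ⊆ L`, and `O` a valuation ring of `L` of rank one that contains the image of `R̂` and is centred on `R`. (Every
valuation ring `V` of rank one of `K` centred on `R` is of the form `O ∩ K`: let `L` be the completion of `K`. The
kernel of `R̂ → L` is the implicit prime ideal of `V`.) Suppose that there is a subalgebra `A₀` of finite type of
`V = O ∩ K` such that the local ring of `R̂[A₀] ⊆ L` at the centre of `O` is regular of dimension one or two, with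
parameters in `A₀`. (The parameters can be chosen in `A₀`, because the centre of `O` on `R̂[A₀]` is generated by the one
of `V` on `A₀`.) For instance: `R̂ / Q` is regular of dimension two, where `Q` is the kernel of `R̂ → L`. There is no
condition on the value group, which need not be finitely generated, nor on the residue field. Then there is a number `h` (the
dimension of the local ring of the generic formal fibre at the kernel of `R̂ → L`) such that for all finite subsets `F` of `V`
there is an `R`-subalgebra `A` of finite type with `A₀, F ⊆ A ⊆ V` whose local ring at the centre of `V` is regular of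
dimension `h + e'`, `e'` one or two, with a regular system of parameters `y_1, ..., y_e', z_1, ..., z_h` such that all nonzero
elements of `F` are products of units and monomials in the `y_i`.

Proof. For a subalgebra `A` of `V` of finite type let `Q_A` be the kernel of `B = R̂ ⊗ A → O` and `n_A` the prime
ideal of the elements whose image is in the maximal ideal. A level is `A` such that `D = (B / Q_A)_{n_A}` is regular of
dimension one or two with parameters in `A`. A quadratic transformation of `D` along `O` is a level again: if `x, y` are the
parameters and `T = y / x ∈ V` then the new level is `A[T]` with the parameters `x, g(T)`, where `g ∈ A[X]` is a minimal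
polynomial of the residue of `T`, or with the parameter `x`, if the residue is transcendental; since `x, y` is a
regular sequence modulo `Q_A`, the kernel of the new level is generated by `Q_A`, locally. Every element `b` of `B` outside
`Q_A` becomes a unit times a monomial: if `b = u y ^ n + c x` then the order `n` does not increase and it drops unless
the exceptional parameter `x` stays the same and `b` is divided by a power of it, which is possible only finitely often. So finitely
many divisibilities between elements of `B / Q_A` in `O` become divisibilities on a level. Hence `Q_A / Q_A ^ 2` becomes free of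
rank `h` modulo torsion, where `h` is the height of `Q_A` (the local ring of `B` at `Q_A` is one of the generic formal
fibre), and the torsion is killed by an element `w`. On a higher level `w` divides `τ ∈ R`, and a power of the maximal ideal
of `R` is in `τ n_A + Q_A`. Then adjoin the `a / τ`, `a ∈ A` in `τ n_A + Q_A`. The centre of `V` on the new algebra is
generated, modulo its square, by the parameters of the level and the quotients by `τ` of approximations of `h` elements of
`Q_A`, and its height is at least `h` plus the dimension of `D`.

The modules of the proof were written by helper4, helper6, helper7, helper9, helper10, helper14, helper18, helper23,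
helper32, helper59, helper77, helper93, helper95 and helper98.
-/

set_option autoImplicit false

open scoped TensorProduct
open IsLocalRing Pool.Agent.Helper10.MU Pool.Agent.Helper10.MV

universe u

namespace Pool.Agent.Results.MP_3029eb_ag.FormalSurfaceValuations

theorem s_blo : S_BLO.{u} := blo rsd tri (mv2 rsd) (dmp rsd) (mv1 rsd)
theorem s_stg : S_STG.{u} := stg (rep rsd) dvg s_blo swp tr2
theorem s_mn2 : S_MN2.{u} := mn2 one rg0 s_stg tr2
theorem s_pr2 : S_PR2.{u} := pr2 s_blo swp tr2
theorem s_ky2 : S_KY2.{u} := ky2 s_mn2 s_pr2

/-- **Embedded local uniformization of all valuations of rank one with a regular formal surface germ.** See the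
explanations above. `hatRing ρ A₀` is the subring of `L` generated by the image of `R̂` and `A₀`, and `centre` is the ideal of
its elements of positive value. -/
theorem result (R : Type u) [CommRing R] [IsDomain R] [IsNoetherianRing R] [IsLocalRing R] (hR : ¬ IsField R)
    (K : Type u) [Field K] [Algebra R K] [IsFractionRing R K]
    (reg : ∀ (Q : Ideal (K ⊗[R] AdicCompletion (maximalIdeal R) R)) [Q.IsPrime],
      IsRegularLocalRing (Localization.AtPrime Q))
    (L : Type u) [Field L] [Algebra K L] (ρ : AdicCompletion (maximalIdeal R) R →+* L)
    (compat : ∀ r : R, ρ (algebraMap R (AdicCompletion (maximalIdeal R) R) r) = algebraMap K L (algebraMap R K r))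
    (O : ValuationSubring L)
    (centred : ∀ r ∈ maximalIdeal R, O.valuation (algebraMap K L (algebraMap R K r)) < 1)
    (rank_one : ∀ a b : L, O.valuation a < 1 → b ≠ 0 → ∃ n : ℕ, O.valuation (a ^ n) ≤ O.valuation b)
    (A₀ : Subalgebra R K) (fg : A₀.FG) (hC : hatRing ρ A₀ ≤ O.toSubring)
    (e : ℕ) (he : e = 1 ∨ e = 2) (dimension : (e : ℕ∞) ≤ (centre (hatRing ρ A₀) O hC).height)
    (x : Fin e → K) (hxA : ∀ i, x i ∈ A₀) (hx0 : ∀ i, x i ≠ 0)
    (hx1 : ∀ i, O.valuation (algebraMap K L (x i)) < 1)
    (parameters : ∀ b ∈ hatRing ρ A₀, O.valuation b < 1 → ∃ s ∈ hatRing ρ A₀, O.valuation s = 1 ∧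
      ∃ c : Fin e → L, (∀ i, c i ∈ hatRing ρ A₀) ∧ s * b = ∑ i, c i * algebraMap K L (x i)) :
    ∃ h : ℕ, ∀ F : Finset K, (∀ f ∈ F, algebraMap K L f ∈ O) →
      ∃ A : Subalgebra R K, A.FG ∧ A₀ ≤ A ∧ (∀ a ∈ A, algebraMap K L a ∈ O) ∧ (∀ f ∈ F, f ∈ A) ∧
        ∃ (P : Ideal A) (_ : P.IsPrime), (∀ a : A, a ∈ P ↔ O.valuation (algebraMap K L (a : K)) < 1) ∧
          IsRegularLocalRing (Localization.AtPrime P) ∧
          ∃ (e' : ℕ) (y : Fin e' → A) (z : Fin h → A), (e' = 1 ∨ e' = 2) ∧
            ringKrullDim (Localization.AtPrime P) = (h + e' : ℕ) ∧
            maximalIdeal (Localization.AtPrime P) =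
              Ideal.span (algebraMap A (Localization.AtPrime P) '' (Set.range y ∪ Set.range z)) ∧
            ∀ f ∈ F, f ≠ 0 → ∃ (β : Fin e' → ℕ) (s v : A), s ∉ P ∧ v ∉ P ∧
              (s : K) * f = v * ∏ i, (y i : K) ^ β i :=
  top2 tr2 s_mn2 s_ky2 (st2 s_ky2 ctr) (fr2 val s_ky2) fp2 fn2 ctr dm2 hR reg ρ compat O centred
    rank_one A₀ fg hC e he dimension x hxA hx0 hx1 parameters

end Pool.Agent.Results.MP_3029eb_ag.FormalSurfaceValuations
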