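import Pool.Agent.Helper10.MU.Top
import Pool.Agent.Helper10.MU.Rch
import Pool.Agent.Helper10.MU.Trn
import Pool.Agent.Helper10.MU.Per
import Pool.Agent.Helper10.MU.Ab1
import Pool.Agent.Helper10.MU.Abh
import Pool.Agent.Helper10.MU.Rsq
import Pool.Agent.Helper10.MU.Mov
import Pool.Agent.Helper10.MU.Exp
import Pool.Agent.Helper10.MU.Min
import Pool.Agent.Helper10.MU.Val
import Pool.Agent.Helper10.MU.Stp
import Pool.Agent.Helper10.MU.Mno
import Pool.Agent.Helper10.MU.Key
import Pool.Agent.Helper10.MU.Sta
import Pool.Agent.Helper10.MU.Fre
import Pool.Agent.Helper10.MU.Frp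
import Pool.Agent.Helper10.MU.Fin
import Pool.Agent.Helper10.MU.Dim

/-!
MP_3029eb_ag: embedded local uniformization of formally monomial valuations of rank one on ALL noetherian local
domains with a regular generic formal fibre, in all dimensions and characteristics.

Let `R` be a noetherian local domain, not a field, with fraction field `K`, whose generic formal fibre `K ⊗ R̂` is
regular, for instance any quasi-excellent local domain. Let `R̂ → L` be a homomorphism to a field compatible with
`K ⊆ L`, and `O` a valuation ring of `L` of rank one that contains the image of `R̂` and is centred on `R`. (Every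
valuation ring `V` of rank one of `K` centred on `R` is of the form `O ∩ K`: let `L` be the completion of `K`. The
kernel of `R̂ → L` is the implicit prime ideal of `V`.) Suppose that there are a subalgebra `A₀` of finite type of `V = O ∩ K` and
elements `x_1, ..., x_e` of `A₀` with rationally independent positive values which generate the maximal ideal of the local
ring of `R̂[A₀] ⊆ L` at the centre of `O`. For instance: `Q` is a prime ideal of `R̂` with `Q ∩ R = 0` such
that `R̂ / Q` is regular of dimension `e`, the `x_i` are elements of `R` that give a regular system of parameters of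
`R̂ / Q`, `O` is the monomial valuation ring of the fraction field `L` of `R̂ / Q` with rationally independent
weights, and `A₀ = R`. Then there is a number `h` (the dimension of the local ring of the generic formal fibre at the
kernel of `R̂ → L`) such that for all finite subsets `F` of `V` there is an `R`-subalgebra `A` of finite type with `A₀, F ⊆ A ⊆ V`
whose local ring at the centre of `V` is regular of dimension `h + e`, with a regular system of parameters
`y_1, ..., y_e, z_1, ..., z_h` such that all nonzero elements of `F` are products of units and monomials in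
the `y_i`.

Proof. For a subalgebra `A` of `V` of finite type let `Q_A` be the kernel of `B = R̂ ⊗ A → O` and `n_A` the prime
ideal of the elements whose image is in the maximal ideal. A level is `A` with `e` elements of `A` that generate
`n_A` modulo `Q_A`, locally at `n_A`; then `(B / Q_A)_{n_A}` is regular of dimension `e` (its dimension is at
least `e` by a counting argument). A move replaces `x_j` by `x_j / x_i`. Since `x_i, x_j` is a regular sequence
modulo `Q_A`, the kernel of the new level is generated by `Q_A`, locally. By moves finitely many divisibilities
between elements of `B / Q_A` in `O` become divisibilities on a level (expansions in monomials and principalization of monomial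
ideals). So `Q_A / Q_A ^ 2` becomes free of rank `h` modulo torsion, where `h` is the height of `Q_A`
(the local ring of `B` at `Q_A` is one of the generic formal fibre), and the torsion is killed by an element `w`.
After more moves `w` divides `τ ∈ R`, and a power of the maximal ideal of `R` is in `τ n_A + Q_A`. Then
adjoin the `a / τ`, `a ∈ A` in `τ n_A + Q_A`. The centre of `V` on the new algebra is generated, modulo its
square, by the `x_i` and the quotients by `τ` of approximations of `h` elements of `Q_A`, and its height is at least `h + e`.

The modules of the proof were written by helper6, helper7, helper9, helper10, helper14, helper23, helper59 and helper93.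
-/

set_option autoImplicit false

open scoped TensorProduct
open IsLocalRing Pool.Agent.Helper10.MU

universe u

namespace Pool.Agent.Results.MP_3029eb_ag.FormallyMonomialValuations

theorem s_abh : S_ABH.{u} := abh ab1
theorem s_mov : S_MOV.{u} := mov (rsq s_abh ab1)
theorem s_stp : S_STP.{u} := stp s_mov trn rch
theorem s_mno : S_MNO.{u} := mno Pool.Agent.Helper10.MU.exp Pool.Agent.Helper10.MU.min per rch s_stp
theorem s_key : S_KEY.{u} := key s_mno per rch s_stp

/-- **Embedded local uniformization of formally monomial valuations on all noetherian local domains with a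
regular generic formal fibre.** See the explanations above. `hatRing ρ A₀` is the subring of `L` generated by the image
of `R̂` and `A₀`. -/
theorem result (R : Type u) [CommRing R] [IsDomain R] [IsNoetherianRing R] [IsLocalRing R] (hR : ¬ IsField R)
    (K : Type u) [Field K] [Algebra R K] [IsFractionRing R K]
    (reg : ∀ (Q : Ideal (K ⊗[R] AdicCompletion (maximalIdeal R) R)) [Q.IsPrime],
      IsRegularLocalRing (Localization.AtPrime Q))
    (L : Type u) [Field L] [Algebra K L] (ρ : AdicCompletion (maximalIdeal R) R →+* L)
    (compat : ∀ r : R, ρ (algebraMap R (AdicCompletion (maximalIdeal R) R) r) = algebraMap K L (algebraMap R K r))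
    (O : ValuationSubring L) (contained : ∀ s, ρ s ∈ O)
    (centred : ∀ r ∈ maximalIdeal R, O.valuation (algebraMap K L (algebraMap R K r)) < 1)
    (rank_one : ∀ a b : L, O.valuation a < 1 → b ≠ 0 → ∃ n : ℕ, O.valuation (a ^ n) ≤ O.valuation b)
    (A₀ : Subalgebra R K) (fg : A₀.FG) (hA₀ : ∀ a ∈ A₀, algebraMap K L a ∈ O)
    (e : ℕ) (x : Fin e → K) (hxA : ∀ i, x i ∈ A₀) (hx1 : ∀ i, O.valuation (algebraMap K L (x i)) < 1)
    (independent : ∀ α β : Fin e → ℕ, O.valuation (algebraMap K L (∏ i, x i ^ α i)) =
      O.valuation (algebraMap K L (∏ i, x i ^ β i)) → α = β)
    (parameters : ∀ b ∈ hatRing ρ A₀, O.valuation b < 1 → ∃ s ∈ hatRing ρ A₀, O.valuation s = 1 ∧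
      ∃ c : Fin e → L, (∀ i, c i ∈ hatRing ρ A₀) ∧ s * b = ∑ i, c i * algebraMap K L (x i)) :
    ∃ h : ℕ, ∀ F : Finset K, (∀ f ∈ F, algebraMap K L f ∈ O) →
      ∃ A : Subalgebra R K, A.FG ∧ A₀ ≤ A ∧ (∀ a ∈ A, algebraMap K L a ∈ O) ∧ (∀ f ∈ F, f ∈ A) ∧
        ∃ (P : Ideal A) (_ : P.IsPrime), (∀ a : A, a ∈ P ↔ O.valuation (algebraMap K L (a : K)) < 1) ∧
          IsRegularLocalRing (Localization.AtPrime P) ∧
          ringKrullDim (Localization.AtPrime P) = (h + e : ℕ) ∧
          ∃ (y : Fin e → A) (z : Fin h → A),
            maximalIdeal (Localization.AtPrime P) =
              Ideal.span (algebraMap A (Localization.AtPrime P) '' (Set.range y ∪ Set.range z)) ∧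
            ∀ f ∈ F, f ≠ 0 → ∃ (β : Fin e → ℕ) (s v : A), s ∉ P ∧ v ∉ P ∧
              (s : K) * f = v * ∏ i, (y i : K) ^ β i :=
  top rch trn s_mno s_key (sta s_key) (fre val s_key) frp fin (dim s_abh) hR reg ρ compat O contained centred
    rank_one A₀ fg hA₀ e x hxA hx1 independent parameters

end Pool.Agent.Results.MP_3029eb_ag.FormallyMonomialValuations
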